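import Mathlib
import Pool.Agent.H302GC.Main

/-!
# Disjoint closed great-circle arcs of length at least `π` do not cover the sphere

Let `𝓐` be a family of pairwise disjoint closed great-circle arcs of the unit sphere `S²`, each of
some length in `[π, 2π)` (the lengths may differ). Then `𝓐` does not cover `S²`, and it covers no closed
hemisphere bounded by the great circle of a member. So the question has a negative answer for all
lengths `L ≥ π`; every partition of `S²` into closed great-circle arcs has an arc shorter than `π`.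

Proof. Let `A` be a member, `C` its great circle. Every other member `B` meets `C` in exactly one
point, which lies in the gap of `A`, and crosses it there. Project the two open hemispheres from the
centre to the plane, so that `C` becomes the line at infinity. `B` becomes a line `x = a y + b(a)`
with an upper ray `y ≥ Y⁺(a)` (one hemisphere) and a lower ray `y ≤ Y⁻(a)` (the other one), and
`Y⁺(a) ≤ Y⁻(a)` as the length is at least `π`. The slopes `a` run through an interval, every slope
occurring once. If one hemisphere is covered, the map `a ↦ a y + b(a)` is for every `y` an increasing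
bijection of `P_y = {Y⁺ ≤ y}` onto `ℝ`, and it is decreasing on `{Y⁻ ≥ y}`. Fix a slope `r`. For
`y < Y⁺(r)` let `(l(y), ρ(y))` be the gap of `P_y` around `r`, and `v(y)` the value there. The ends
`l`, `ρ` are monotone functions of `y`; take a common point of continuity. If both ends move just
after `y` then `a y + b(a)` is constant on the gap, which contradicts the strict monotonicity; if one
end stands still then it determines `v`, and a point inside the gap with a too small value is found.
-/

open Set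

namespace Pool.Agent.Results.MP_4d4852_co.LongArcs

/-- `a` is a closed great-circle arc of length `L` of the unit sphere: it is parametrised by the
arc length `t ∈ [0, L]` as `cos t • u + sin t • v` with an orthonormal pair `u, v`. -/
def IsArc (L : ℝ) (a : Set (EuclideanSpace ℝ (Fin 3))) : Prop :=
  ∃ u v : EuclideanSpace ℝ (Fin 3), ‖u‖ = 1 ∧ ‖v‖ = 1 ∧ inner ℝ u v = (0 : ℝ) ∧
    a = (fun t : ℝ => Real.cos t • u + Real.sin t • v) '' Set.Icc 0 L

/-- Let `𝓐` be a family of pairwise disjoint closed great-circle arcs of the unit sphere, each of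
some length in `[π, 2π)`. Let `H` be the whole sphere or a closed hemisphere whose bounding great
circle contains a member of `𝓐`. Then `𝓐` does not cover `H`. -/
theorem result (𝓐 : Set (Set (EuclideanSpace ℝ (Fin 3))))
    (harc : ∀ a ∈ 𝓐, ∃ L : ℝ, Real.pi ≤ L ∧ L < 2 * Real.pi ∧ IsArc L a)
    (hdisj : 𝓐.PairwiseDisjoint id) (H : Set (EuclideanSpace ℝ (Fin 3)))
    (hH : H = Metric.sphere (0 : EuclideanSpace ℝ (Fin 3)) 1 ∨
      ∃ a ∈ 𝓐, ∃ n : EuclideanSpace ℝ (Fin 3), ‖n‖ = 1 ∧ (∀ x ∈ a, inner ℝ n x = (0 : ℝ)) ∧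
        H = {x | ‖x‖ = 1 ∧ 0 ≤ inner ℝ n x}) : ¬ H ⊆ ⋃₀ 𝓐 := by
  have hone : ∀ x : EuclideanSpace ℝ (Fin 3), ‖x‖ = 1 → inner ℝ x x = (1 : ℝ) := by
    intro x hx
    rw [real_inner_self_eq_norm_sq, hx]; norm_num
  have harc' : ∀ B ∈ 𝓐, ∃ (L : ℝ) (u' v' : EuclideanSpace ℝ (Fin 3)), Real.pi ≤ L ∧
      inner ℝ u' u' = (1 : ℝ) ∧ inner ℝ v' v' = (1 : ℝ) ∧ inner ℝ u' v' = (0 : ℝ) ∧
      B = (fun t : ℝ => Real.cos t • u' + Real.sin t • v') '' Icc 0 L := by
    intro B hB
    obtain ⟨L, hL, -, u', v', h1, h2, h3, h4⟩ := harc B hB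
    exact ⟨L, u', v', hL, hone _ h1, hone _ h2, h3, h4⟩
  have key : ∀ a ∈ 𝓐, ∀ n : EuclideanSpace ℝ (Fin 3), ‖n‖ = 1 →
      (∀ x ∈ a, inner ℝ n x = (0 : ℝ)) → ¬ {x | ‖x‖ = 1 ∧ 0 ≤ inner ℝ n x} ⊆ ⋃₀ 𝓐 := by
    intro a ha n hn hna hsub
    obtain ⟨L, hL, hL', u, v, h1, h2, h3, h4⟩ := harc a ha
    have hpi := Real.pi_pos
    have hu : inner ℝ n u = (0 : ℝ) := by
      apply hna
      rw [h4]
      exact ⟨0, ⟨le_rfl, by linarith⟩, by simp⟩
    have hv : inner ℝ n v = (0 : ℝ) := by
      apply hna
      rw [h4]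
      exact ⟨Real.pi / 2, ⟨by linarith, by linarith⟩, by simp⟩
    have F : H302GC.Frame u v n := ⟨hone _ h1, hone _ h2, hone _ hn, h3,
      by rw [real_inner_comm, hu], by rw [real_inner_comm, hv]⟩
    apply H302GC.hemisphere F 𝓐 harc' hdisj ha hL hL' h4
    intro x hx hnx
    obtain ⟨B, hB, hxB⟩ := hsub (show x ∈ {x | ‖x‖ = 1 ∧ 0 ≤ inner ℝ n x} from ⟨hx, hnx⟩)
    exact ⟨B, hB, hxB⟩
  rcases hH with rfl | ⟨a, ha, n, hn, hna, rfl⟩
  · intro hsub
    -- the family is not empty
    have hx0 : (EuclideanSpace.single (0 : Fin 3) (1 : ℝ)) ∈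
        Metric.sphere (0 : EuclideanSpace ℝ (Fin 3)) 1 := by simp
    obtain ⟨a, ha, -⟩ := hsub hx0
    obtain ⟨L, hL, hL', u, v, h1, h2, h3, h4⟩ := harc a ha
    obtain ⟨n, F⟩ := H302GC.exists_normal (hone _ h1) (hone _ h2) h3
    have hn : ‖n‖ = 1 := by
      have := F.nn
      rw [real_inner_self_eq_norm_sq] at this
      have h0 := norm_nonneg n
      nlinarith
    apply key a ha n hn
    · intro x hx
      rw [h4] at hx
      obtain ⟨t, -, rfl⟩ := hx
      have := F.in_n (Real.cos t) (Real.sin t) 0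
      rwa [zero_smul, add_zero] at this
    · rintro x ⟨hx, -⟩
      exact hsub (by simpa using hx)
  · exact key a ha n hn hna

end Pool.Agent.Results.MP_4d4852_co.LongArcs
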